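import Mathlib

/-!
# MP_ca7516_co : a polyhedral torus with a forced convex vertex of valence 4

The combinatorial type has 17 vertices and 13 faces (genus 1). The vertex `0` has valence 4; its
neighbours `1, 2, 3, 4` have valence 3 and lie on a cycle `1 6 2 7 3 8 4 5` of vertices of valence 3.

At the two ends of an edge joining two vertices of valence 3 (or `0` and a vertex of valence 3) the
determinants of the edge vectors have the same sign, since each of the two faces at the edge is a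
convex polygon. So the four determinants of consecutive edge vectors at `0` have the same sign in
every realization. If they are not zero then the vertex `0` is convex. If they are zero, then the
eight faces meeting the cycle lie in one plane, and these faces contain all the vertices; but a
closed surface is not embedded in a plane (consider the farthest vertex).

The type is realized: take the torus with vertices `12 d_i` at height `0` and `4 d_i` at height
`4` and `-4`, where `d_0 = (1,0)`, `d_1 = (0,1)`, `d_2 = (-1,-1)`, and cut off the convex vertex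
`(12,0,0)` by four planes through `(9,0,0)`.
-/

set_option autoImplicit false

namespace Pool.Agent.Results.MP_ca7516_co.ForcedConvex

open Set
open scoped RealInnerProductSpace

/-- Euclidean 3-space. -/
abbrev E3 := EuclideanSpace ℝ (Fin 3)

/-- The determinant of three vectors. -/
def tp (a b c : E3) : ℝ :=
  a 0 * (b 1 * c 2 - b 2 * c 1) - a 1 * (b 0 * c 2 - b 2 * c 0) + a 2 * (b 0 * c 1 - b 1 * c 0)

/-- The cyclically consecutive pairs of a list. -/
abbrev cyc {α : Type} (L : List α) : List (α × α) := L.zip (L.rotate 1)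

/-- The points of `L` are, in this cyclic order, the vertices of a convex polygon in a plane of
`E3` (with normal vector `n`): every other vertex is strictly on the left of every side. -/
def IsConvexPolygon (L : List E3) : Prop :=
  3 ≤ L.length ∧ L.Nodup ∧ ∃ n : E3, (∀ x ∈ L, ∀ y ∈ L, ⟪n, x - y⟫ = 0) ∧
    ∀ e ∈ cyc L, ∀ x ∈ L, x ≠ e.1 → x ≠ e.2 → 0 < tp (e.2 - e.1) (x - e.1) n

/-- `w` is a neighbour of `v`. -/
def Adj {m : ℕ} (F : List (List (Fin m))) (v w : Fin m) : Prop := ∃ f ∈ F, (v, w) ∈ cyc f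

/-- `L` lists all neighbours of `v` in cyclic order around `v`: consecutive neighbours
`a, b` come from a face in which `a, v, b` are consecutive. -/
def IsLink {m : ℕ} (F : List (List (Fin m))) (v : Fin m) (L : List (Fin m)) : Prop :=
  L.Nodup ∧ (∀ w, w ∈ L ↔ Adj F v w) ∧
    ∀ e ∈ cyc L, ∃ f ∈ F, (e.1, v) ∈ cyc f ∧ (v, e.2) ∈ cyc f

/-- The faces `F` (cyclic lists of vertices) form a polyhedral map on the torus. -/
structure IsTorusMap {m : ℕ} (F : List (List (Fin m))) : Prop where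
  nodup : F.Nodup
  face : ∀ f ∈ F, 3 ≤ f.length ∧ f.Nodup
  inter : ∀ f ∈ F, ∀ g ∈ F, f ≠ g → (∃ a, ∀ v, v ∈ f → v ∈ g → v = a) ∨
    ∃ a b, (a, b) ∈ cyc f ∧ (b, a) ∈ cyc g ∧ ∀ v, v ∈ f → v ∈ g → v = a ∨ v = b
  edge : ∀ f ∈ F, ∀ e ∈ cyc f, (∀ g ∈ F, e ∈ cyc g → g = f) ∧ ∃ g ∈ F, (e.2, e.1) ∈ cyc g
  link : ∀ v, ∃ L, 3 ≤ L.length ∧ IsLink F v L
  connected : ∀ v w, Relation.ReflTransGen (Adj F) v w
  euler : 2 * m + 2 * F.length = (F.map List.length).sum

/-- `p` realizes `F` in `E3`: the faces are convex polygons, and two faces meet exactly in the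
convex hull of their common vertices. -/
structure IsRealization {m : ℕ} (F : List (List (Fin m))) (p : Fin m → E3) : Prop where
  inj : Function.Injective p
  face : ∀ f ∈ F, IsConvexPolygon (f.map p)
  inter : ∀ f ∈ F, ∀ g ∈ F, f ≠ g →
    convexHull ℝ (p '' {v | v ∈ f}) ∩ convexHull ℝ (p '' {v | v ∈ g}) =
      convexHull ℝ (p '' {v | v ∈ f ∧ v ∈ g})

/-- The point of the line `x y` on the plane `⟪a, ·⟫ = c`. -/
noncomputable def cut (a : E3) (c : ℝ) (x y : E3) : E3 :=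
  x + ((c - ⟪a, x⟫) / (⟪a, y⟫ - ⟪a, x⟫)) • (y - x)

/-- The vertex `v` with neighbours `L` in cyclic order is convex: a plane strictly separates `v` from
its neighbours, and the vertex figure is a convex polygon. -/
def IsConvexVertex {m : ℕ} (p : Fin m → E3) (v : Fin m) (L : List (Fin m)) : Prop :=
  ∃ (a : E3) (c : ℝ), ⟪a, p v⟫ < c ∧ (∀ w ∈ L, c < ⟪a, p w⟫) ∧
    IsConvexPolygon (L.map fun w => cut a c (p v) (p w))

/-! ### the example -/

/-- the faces, indexed -/
def Fc : Fin 13 → List (Fin 17) :=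
  ![[0, 4, 5, 1], [0, 1, 6, 2], [0, 2, 7, 3], [0, 3, 8, 4],
    [9, 12, 11, 6, 1, 5], [11, 13, 10, 7, 2, 6], [10, 16, 14, 8, 3, 7], [14, 15, 9, 5, 4, 8],
    [9, 10, 13, 12], [15, 16, 10, 9], [11, 12, 15, 14], [12, 13, 16, 15], [13, 11, 14, 16]]

/-- the faces of the example; `0` is the forced vertex -/
def FF : List (List (Fin 17)) :=
  [[0, 4, 5, 1], [0, 1, 6, 2], [0, 2, 7, 3], [0, 3, 8, 4],
    [9, 12, 11, 6, 1, 5], [11, 13, 10, 7, 2, 6], [10, 16, 14, 8, 3, 7], [14, 15, 9, 5, 4, 8],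
    [9, 10, 13, 12], [15, 16, 10, 9], [11, 12, 15, 14], [12, 13, 16, 15], [13, 11, 14, 16]]

instance {m : ℕ} (F : List (List (Fin m))) (v w : Fin m) : Decidable (Adj F v w) := by
  unfold Adj; infer_instance

/-- the links -/
def LL : Fin 17 → List (Fin 17) :=
  ![[1, 4, 3, 2], [0, 6, 5], [0, 7, 6], [0, 8, 7], [0, 5, 8], [1, 9, 4], [1, 2, 11], [2, 3, 10],
    [3, 4, 14], [5, 12, 10, 15], [7, 16, 9, 13], [6, 13, 14, 12], [9, 11, 15, 13],
    [10, 12, 16, 11], [8, 15, 11, 16], [9, 16, 12, 14], [10, 14, 13, 15]]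

/-- distance to the vertex `0` -/
def lv : Fin 17 → ℕ := ![0, 1, 1, 1, 1, 2, 2, 2, 2, 3, 3, 3, 4, 4, 3, 4, 4]

lemma FF_mem {f : List (Fin 17)} : f ∈ FF ↔ ∃ i, Fc i = f := by
  have h : FF = (List.finRange 13).map Fc := by decide +kernel
  rw [h]; simp

/-- at most one common vertex -/
def C1 (f g : List (Fin 17)) : Prop := ∃ a, ∀ v, v ∈ f → v ∈ g → v = a
/-- exactly one common edge -/
def C2 (f g : List (Fin 17)) : Prop :=
  ∃ a b, (a, b) ∈ cyc f ∧ (b, a) ∈ cyc g ∧ ∀ v, v ∈ f → v ∈ g → v = a ∨ v = b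
instance (f g : List (Fin 17)) : Decidable (C1 f g) := by unfold C1; infer_instance
instance (f g : List (Fin 17)) : Decidable (C2 f g) := by unfold C2; infer_instance

lemma FF_nodup : FF.Nodup := by decide +kernel
lemma FF_face : ∀ f ∈ FF, 3 ≤ f.length ∧ f.Nodup := by decide +kernel
lemma FF_inter : ∀ f ∈ FF, ∀ g ∈ FF, f ≠ g → C1 f g ∨ C2 f g := by decide +kernel
lemma FF_edge : ∀ f ∈ FF, ∀ e ∈ cyc f, (∀ g ∈ FF, e ∈ cyc g → g = f) ∧
    ∃ g ∈ FF, (e.2, e.1) ∈ cyc g := by decide +kernel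
lemma FF_euler : 2 * 17 + 2 * FF.length = (FF.map List.length).sum := by decide +kernel
lemma LL1 : ∀ v, (LL v).Nodup ∧ 3 ≤ (LL v).length := by decide +kernel
lemma LL2 : ∀ v w, w ∈ LL v ↔ Adj FF v w := by decide +kernel
lemma LL3 : ∀ v, ∀ e ∈ cyc (LL v), ∃ f ∈ FF, (e.1, v) ∈ cyc f ∧ (v, e.2) ∈ cyc f := by
  decide +kernel
lemma LL_link (v : Fin 17) : IsLink FF v (LL v) := ⟨(LL1 v).1, LL2 v, LL3 v⟩
lemma lv_dec : ∀ v, lv v ≠ 0 → ∃ w, Adj FF v w ∧ Adj FF w v ∧ lv w < lv v := by decide +kernel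
lemma lv_zero : ∀ v, lv v = 0 → v = 0 := by decide +kernel

lemma reach : ∀ (k : ℕ) (v : Fin 17), lv v ≤ k → Relation.ReflTransGen (Adj FF) v 0 ∧
    Relation.ReflTransGen (Adj FF) 0 v := by
  intro k
  induction k with
  | zero =>
    intro v hv
    rw [lv_zero v (Nat.le_zero.1 hv)]
    exact ⟨Relation.ReflTransGen.refl, Relation.ReflTransGen.refl⟩
  | succ k ih =>
    intro v hv
    by_cases h0 : lv v = 0
    · rw [lv_zero v h0]
      exact ⟨Relation.ReflTransGen.refl, Relation.ReflTransGen.refl⟩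
    · obtain ⟨w, h1, h2, h3⟩ := lv_dec v h0
      obtain ⟨h4, h5⟩ := ih w (by omega)
      exact ⟨Relation.ReflTransGen.head h1 h4, Relation.ReflTransGen.tail h5 h2⟩

lemma FF_torus : IsTorusMap FF where
  nodup := FF_nodup
  face := FF_face
  inter := FF_inter
  edge := FF_edge
  link := fun v => ⟨LL v, (LL1 v).2, LL_link v⟩
  connected := fun v w => (reach _ v le_rfl).1.trans (reach _ w le_rfl).2
  euler := FF_euler

/-! ### determinants -/

lemma inner_eq (x y : E3) : ⟪x, y⟫ = x 0 * y 0 + x 1 * y 1 + x 2 * y 2 := by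
  simp [PiLp.inner_apply, Fin.sum_univ_three]
  ring

lemma four (r s y a : E3) : tp r s y • a = tp a s y • r + tp r a y • s + tp r s a • y := by
  ext j
  fin_cases j <;> simp [tp] <;> ring

lemma four_inner (r s y a b : E3) :
    tp r s y * ⟪a, b⟫ = tp a s y * ⟪r, b⟫ + tp r a y * ⟪s, b⟫ + tp r s a * ⟪y, b⟫ := by
  have h := congrArg (fun z => ⟪z, b⟫) (four r s y a)
  simp only [inner_add_left, real_inner_smul_left] at h
  exact h

/-- three vectors orthogonal to a nonzero vector are dependent -/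
lemma tp_zero {r s y n : E3} (hn : n ≠ 0) (hr : ⟪n, r⟫ = 0) (hs : ⟪n, s⟫ = 0)
    (hy : ⟪n, y⟫ = 0) : tp r s y = 0 := by
  have h := four_inner r s y n n
  rw [real_inner_comm n r, real_inner_comm n s, real_inner_comm n y, hr, hs, hy,
    real_inner_self_eq_norm_sq] at h
  have hn' : ‖n‖ ^ 2 ≠ 0 := by
    have := norm_pos_iff.2 hn
    positivity
  have h2 : tp r s y * ‖n‖ ^ 2 = 0 := by linarith
  exact (mul_eq_zero.1 h2).resolve_right hn'

lemma ne_zero_of_tp {u a n : E3} (h : 0 < tp u a n) : n ≠ 0 := by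
  rintro rfl
  simp [tp] at h

lemma same_side {u a c n : E3} (hu : ⟪n, u⟫ = 0) (ha : ⟪n, a⟫ = 0) (hc : ⟪n, c⟫ = 0)
    (h1 : 0 < tp u a n) (h2 : 0 < tp u c n) : ∃ α γ : ℝ, 0 < γ ∧ c = α • u + γ • a := by
  have hz := tp_zero (ne_zero_of_tp h1) hu ha hc
  have h := four u a n c
  -- tp u a n • c = tp c a n • u + tp u c n • a + tp u a c • n
  rw [hz, zero_smul, add_zero] at h
  refine ⟨tp c a n / tp u a n, tp u c n / tp u a n, div_pos h2 h1, ?_⟩
  calc c = (tp u a n)⁻¹ • (tp u a n • c) := by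
        rw [smul_smul, inv_mul_cancel₀ h1.ne', one_smul]
    _ = _ := by
        rw [h, smul_add, smul_smul, smul_smul, div_eq_inv_mul, div_eq_inv_mul]

/-- positively proportional -/
def Pos (a b : ℝ) : Prop := ∃ k : ℝ, 0 < k ∧ a = k * b

lemma Pos.trans {a b c : ℝ} (h1 : Pos a b) (h2 : Pos b c) : Pos a c := by
  obtain ⟨k, hk, rfl⟩ := h1
  obtain ⟨l, hl, rfl⟩ := h2
  exact ⟨k * l, mul_pos hk hl, by ring⟩

lemma Pos.symm {a b : ℝ} (h1 : Pos a b) : Pos b a := by
  obtain ⟨k, hk, rfl⟩ := h1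
  exact ⟨k⁻¹, inv_pos.2 hk, by rw [← mul_assoc, inv_mul_cancel₀ hk.ne', one_mul]⟩

lemma cyc_map {m : ℕ} {f : List (Fin m)} (p : Fin m → E3) {a b : Fin m} (h : (a, b) ∈ cyc f) :
    (p a, p b) ∈ cyc (f.map p) := by
  unfold cyc at h ⊢
  rw [← List.map_rotate, List.zip_map, List.mem_map]
  exact ⟨(a, b), h, rfl⟩

/-! ### local geometry of a realization -/

section
variable {m : ℕ} {F : List (List (Fin m))} {p : Fin m → E3}

/-- the data of a face -/
lemma face_data (hp : IsRealization F p) {f : List (Fin m)} (hf : f ∈ F) :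
    ∃ n : E3, (∀ x ∈ f, ∀ y ∈ f, ⟪n, p x - p y⟫ = 0) ∧
      ∀ a b, (a, b) ∈ cyc f → ∀ x ∈ f, x ≠ a → x ≠ b → 0 < tp (p b - p a) (p x - p a) n := by
  obtain ⟨_, _, n, h1, h2⟩ := hp.face f hf
  refine ⟨n, fun x hx y hy => h1 _ (List.mem_map_of_mem hx) _ (List.mem_map_of_mem hy), ?_⟩
  intro a b hab x hx hxa hxb
  exact h2 (p a, p b) (cyc_map p hab) (p x) (List.mem_map_of_mem hx)
    (fun h => hxa (hp.inj h)) (fun h => hxb (hp.inj h))

lemma mem_of_cyc {f : List (Fin m)} {a b : Fin m} (h : (a, b) ∈ cyc f) : a ∈ f ∧ b ∈ f := by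
  obtain ⟨h1, h2⟩ := List.of_mem_zip h
  exact ⟨h1, List.mem_rotate.1 h2⟩

lemma edge_lemma (hp : IsRealization F p) {f g : List (Fin m)} (hf : f ∈ F) (hg : g ∈ F)
    {x y a b c d : Fin m} (hxy : (x, y) ∈ cyc f) (hyx : (y, x) ∈ cyc g)
    (ha : a ∈ f) (hax : a ≠ x) (hay : a ≠ y) (hc : c ∈ f) (hcx : c ≠ x) (hcy : c ≠ y)
    (hb : b ∈ g) (hbx : b ≠ x) (hby : b ≠ y) (hd : d ∈ g) (hdx : d ≠ x) (hdy : d ≠ y) :
    Pos (tp (p x - p y) (p d - p y) (p c - p y)) (tp (p y - p x) (p a - p x) (p b - p x)) := by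
  obtain ⟨n, n1, n2⟩ := face_data hp hf
  obtain ⟨n', n1', n2'⟩ := face_data hp hg
  have hx := (mem_of_cyc hxy).1
  have hy := (mem_of_cyc hxy).2
  have hx' := (mem_of_cyc hyx).2
  have hy' := (mem_of_cyc hyx).1
  obtain ⟨α, γ, hγ, hca⟩ := same_side (n1 y hy x hx) (n1 a ha x hx) (n1 c hc x hx)
    (n2 x y hxy a ha hax hay) (n2 x y hxy c hc hcx hcy)
  obtain ⟨β, δ, hδ, hdb⟩ := same_side (n1' x hx' y hy') (n1' b hb y hy') (n1' d hd y hy')
    (n2' y x hyx b hb hby hbx) (n2' y x hyx d hd hdy hdx)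
  refine ⟨γ * δ, mul_pos hγ hδ, ?_⟩
  have e1 : p c - p y = (α - 1) • (p y - p x) + γ • (p a - p x) := by
    have : p c - p y = (p c - p x) - (p y - p x) := by abel
    rw [this, hca, sub_smul, one_smul]; abel
  have e2 : p d - p y = (-(β + δ)) • (p y - p x) + δ • (p b - p x) := by
    rw [hdb]; module
  have e3 : p x - p y = -(p y - p x) := by abel
  rw [e1, e2, e3]
  generalize p y - p x = u
  generalize p a - p x = a'
  generalize p b - p x = b'
  simp only [tp, PiLp.add_apply, PiLp.neg_apply, PiLp.smul_apply, smul_eq_mul]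
  ring

/-- if a plane contains three vertices of a face then it contains the face -/
lemma plane_of (hp : IsRealization F p) {f : List (Fin m)} (hf : f ∈ F) {a b c : Fin m}
    (hab : (a, b) ∈ cyc f) (hc : c ∈ f) (hca : c ≠ a) (hcb : c ≠ b) {N o : E3}
    (h1 : ⟪N, p a - o⟫ = 0) (h2 : ⟪N, p b - o⟫ = 0) (h3 : ⟪N, p c - o⟫ = 0) :
    ∀ d ∈ f, ⟪N, p d - o⟫ = 0 := by
  intro d hd
  obtain ⟨n, n1, n2⟩ := face_data hp hf
  have ha := (mem_of_cyc hab).1
  have hb := (mem_of_cyc hab).2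
  have hpos := n2 a b hab c hc hca hcb
  have hz := tp_zero (ne_zero_of_tp hpos) (n1 b hb a ha) (n1 c hc a ha) (n1 d hd a ha)
  have h := four_inner (p b - p a) (p c - p a) n (p d - p a) N
  rw [hz, zero_mul, add_zero] at h
  have e1 : ⟪p b - p a, N⟫ = 0 := by
    rw [real_inner_comm]
    have : p b - p a = (p b - o) - (p a - o) := by abel
    rw [this, inner_sub_right, h1, h2, sub_zero]
  have e2 : ⟪p c - p a, N⟫ = 0 := by
    rw [real_inner_comm]
    have : p c - p a = (p c - o) - (p a - o) := by abel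
    rw [this, inner_sub_right, h1, h3, sub_zero]
  rw [e1, e2, mul_zero, mul_zero, add_zero] at h
  have e3 : ⟪p d - p a, N⟫ = 0 := (mul_eq_zero.1 h).resolve_left hpos.ne'
  have : p d - o = (p d - p a) + (p a - o) := by abel
  rw [this, inner_add_right, h1, real_inner_comm, e3, add_zero]

end

/-! ### four vectors -/

/-- cross product -/
noncomputable def cr (x y : E3) : E3 :=
  !₂[x 1 * y 2 - x 2 * y 1, x 2 * y 0 - x 0 * y 2, x 0 * y 1 - x 1 * y 0]

lemma inner_cr (x y z : E3) : ⟪cr x y, z⟫ = tp x y z := by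
  rw [inner_eq]
  simp [cr, tp]
  ring

lemma tri_pos {σ κ : ℝ} {a v e f g : E3} (hκ : 0 < κ) (he : 0 < ⟪a, e⟫) (hf : 0 < ⟪a, f⟫)
    (hg : 0 < ⟪a, g⟫) (h : 0 < σ * tp e f g) :
    0 < tp ((v + (κ / ⟪a, f⟫) • f) - (v + (κ / ⟪a, e⟫) • e))
      ((v + (κ / ⟪a, g⟫) • g) - (v + (κ / ⟪a, e⟫) • e)) (σ • a) := by
  set μ := κ / ⟪a, e⟫ with hμ
  set ν := κ / ⟪a, f⟫ with hν
  set ξ := κ / ⟪a, g⟫ with hξ
  have hμ0 : 0 < μ := div_pos hκ he
  have hν0 : 0 < ν := div_pos hκ hf
  have hξ0 : 0 < ξ := div_pos hκ hg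
  have m1 : μ * ⟪a, e⟫ = κ := div_mul_cancel₀ _ he.ne'
  have m2 : ν * ⟪a, f⟫ = κ := div_mul_cancel₀ _ hf.ne'
  have m3 : ξ * ⟪a, g⟫ = κ := div_mul_cancel₀ _ hg.ne'
  have r0 : (v + ν • f) - (v + μ • e) = ν • f - μ • e := by abel
  have s0 : (v + ξ • g) - (v + μ • e) = ξ • g - μ • e := by abel
  rw [r0, s0]
  have hr : ⟪ν • f - μ • e, a⟫ = 0 := by
    rw [real_inner_comm, inner_sub_right, inner_smul_right, inner_smul_right, m1, m2, sub_self]
  have hs : ⟪ξ • g - μ • e, a⟫ = 0 := by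
    rw [real_inner_comm, inner_sub_right, inner_smul_right, inner_smul_right, m1, m3, sub_self]
  have hy : ⟪μ • e, a⟫ = κ := by
    rw [real_inner_comm, inner_smul_right, m1]
  have key := four_inner (ν • f - μ • e) (ξ • g - μ • e) (μ • e) a a
  rw [hr, hs, hy, mul_zero, mul_zero, zero_add, zero_add] at key
  have ht : tp (ν • f - μ • e) (ξ • g - μ • e) (μ • e) = μ * ν * ξ * tp e f g := by
    simp only [tp, PiLp.sub_apply, PiLp.smul_apply, smul_eq_mul]
    ring
  have hlin : tp (ν • f - μ • e) (ξ • g - μ • e) (σ • a) =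
      σ * tp (ν • f - μ • e) (ξ • g - μ • e) a := by
    simp only [tp, PiLp.sub_apply, PiLp.smul_apply, smul_eq_mul]
    ring
  rw [ht] at key
  rw [hlin]
  have ha : 0 < ⟪a, a⟫ := by
    rw [real_inner_self_eq_norm_sq]
    have : a ≠ 0 := by
      rintro rfl
      simp at he
    have := norm_pos_iff.2 this
    positivity
  have h4 : σ * tp (ν • f - μ • e) (ξ • g - μ • e) a * κ
      = (μ * ν * ξ * ⟪a, a⟫) * (σ * tp e f g) := by
    linear_combination (-σ) * key
  have h5 : 0 < (μ * ν * ξ * ⟪a, a⟫) * (σ * tp e f g) := by positivity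
  rw [← h4] at h5
  exact (mul_pos_iff_of_pos_right hκ).1 h5

lemma tp_cyc (a b c : E3) : tp a b c = tp b c a := by
  simp only [tp]; ring

lemma polygon_of {x0 x1 x2 x3 n : E3} (hn : ∀ x ∈ [x0, x1, x2, x3], ∀ y ∈ [x0, x1, x2, x3],
    ⟪n, x - y⟫ = 0)
    (h012 : 0 < tp (x1 - x0) (x2 - x0) n) (h013 : 0 < tp (x1 - x0) (x3 - x0) n)
    (h123 : 0 < tp (x2 - x1) (x3 - x1) n) (h120 : 0 < tp (x2 - x1) (x0 - x1) n)
    (h230 : 0 < tp (x3 - x2) (x0 - x2) n) (h231 : 0 < tp (x3 - x2) (x1 - x2) n)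
    (h301 : 0 < tp (x0 - x3) (x1 - x3) n) (h302 : 0 < tp (x0 - x3) (x2 - x3) n) :
    IsConvexPolygon [x0, x1, x2, x3] := by
  refine ⟨by simp, ?_, n, hn, ?_⟩
  · have z : ∀ a : E3, tp 0 a n = 0 := fun a => by simp [tp]
    have z' : ∀ a : E3, tp a 0 n = 0 := fun a => by simp [tp]
    have d01 : x0 ≠ x1 := by rintro rfl; rw [sub_self, z] at h012; exact lt_irrefl _ h012
    have d02 : x0 ≠ x2 := by rintro rfl; rw [sub_self, z'] at h012; exact lt_irrefl _ h012
    have d03 : x0 ≠ x3 := by rintro rfl; rw [sub_self, z'] at h013; exact lt_irrefl _ h013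
    have d12 : x1 ≠ x2 := by rintro rfl; rw [sub_self, z] at h123; exact lt_irrefl _ h123
    have d13 : x1 ≠ x3 := by rintro rfl; rw [sub_self, z'] at h123; exact lt_irrefl _ h123
    have d23 : x2 ≠ x3 := by rintro rfl; rw [sub_self, z] at h230; exact lt_irrefl _ h230
    simp [d01, d02, d03, d12, d13, d23]
  · intro e he x hx hxe1 hxe2
    simp only [cyc, List.rotate_cons_succ, List.rotate_zero, List.cons_append, List.nil_append,
      List.zip_cons_cons, List.zip_nil_right, List.mem_cons, List.not_mem_nil, or_false] at he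
    simp only [List.mem_cons, List.not_mem_nil, or_false] at hx
    rcases he with rfl | rfl | rfl | rfl <;> rcases hx with rfl | rfl | rfl | rfl <;>
      first
        | exact absurd rfl hxe1
        | exact absurd rfl hxe2
        | assumption

/-- Four vectors with consecutive triples of the same sign span a convex cone. -/
lemma four_convex (σ : ℝ) (v w0 w1 w2 w3 : E3)
    (h0 : 0 < σ * tp (w0 - v) (w1 - v) (w2 - v)) (h1 : 0 < σ * tp (w1 - v) (w2 - v) (w3 - v))
    (h2 : 0 < σ * tp (w2 - v) (w3 - v) (w0 - v)) (h3 : 0 < σ * tp (w3 - v) (w0 - v) (w1 - v)) :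
    ∃ (a : E3) (c : ℝ), ⟪a, v⟫ < c ∧ c < ⟪a, w0⟫ ∧ c < ⟪a, w1⟫ ∧ c < ⟪a, w2⟫ ∧ c < ⟪a, w3⟫ ∧
      IsConvexPolygon [cut a c v w0, cut a c v w1, cut a c v w2, cut a c v w3] := by
  have E0 : ∀ w : E3, w = v + (w - v) := fun w => by abel
  generalize he0 : w0 - v = e0 at *
  generalize he1 : w1 - v = e1 at *
  generalize he2 : w2 - v = e2 at *
  generalize he3 : w3 - v = e3 at *
  set a : E3 := σ • (cr e0 e1 + cr e1 e2 + cr e2 e3 + cr e3 e0) with ha
  have hin : ∀ z, ⟪a, z⟫ = σ * (tp e0 e1 z + tp e1 e2 z + tp e2 e3 z + tp e3 e0 z) := by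
    intro z
    rw [ha, real_inner_smul_left, inner_add_left, inner_add_left, inner_add_left]
    simp only [inner_cr]
  have p0 : 0 < ⟪a, e0⟫ := by
    rw [hin]
    have : tp e0 e1 e0 + tp e1 e2 e0 + tp e2 e3 e0 + tp e3 e0 e0 = tp e0 e1 e2 + tp e2 e3 e0 := by
      simp only [tp]; ring
    rw [this, mul_add]; linarith
  have p1 : 0 < ⟪a, e1⟫ := by
    rw [hin]
    have : tp e0 e1 e1 + tp e1 e2 e1 + tp e2 e3 e1 + tp e3 e0 e1 = tp e1 e2 e3 + tp e3 e0 e1 := by
      simp only [tp]; ring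
    rw [this, mul_add]; linarith
  have p2 : 0 < ⟪a, e2⟫ := by
    rw [hin]
    have : tp e0 e1 e2 + tp e1 e2 e2 + tp e2 e3 e2 + tp e3 e0 e2 = tp e0 e1 e2 + tp e2 e3 e0 := by
      simp only [tp]; ring
    rw [this, mul_add]; linarith
  have p3 : 0 < ⟪a, e3⟫ := by
    rw [hin]
    have : tp e0 e1 e3 + tp e1 e2 e3 + tp e2 e3 e3 + tp e3 e0 e3 = tp e1 e2 e3 + tp e3 e0 e1 := by
      simp only [tp]; ring
    rw [this, mul_add]; linarith
  obtain ⟨κ, hκ, k0, k1, k2, k3⟩ : ∃ κ : ℝ, 0 < κ ∧ κ < ⟪a, e0⟫ ∧ κ < ⟪a, e1⟫ ∧ κ < ⟪a, e2⟫ ∧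
      κ < ⟪a, e3⟫ := by
    set M := min (min ⟪a, e0⟫ ⟪a, e1⟫) (min ⟪a, e2⟫ ⟪a, e3⟫) with hM
    have hMp : 0 < M := lt_min (lt_min p0 p1) (lt_min p2 p3)
    have l0 : M ≤ ⟪a, e0⟫ := (min_le_left _ _).trans (min_le_left _ _)
    have l1 : M ≤ ⟪a, e1⟫ := (min_le_left _ _).trans (min_le_right _ _)
    have l2 : M ≤ ⟪a, e2⟫ := (min_le_right _ _).trans (min_le_left _ _)
    have l3 : M ≤ ⟪a, e3⟫ := (min_le_right _ _).trans (min_le_right _ _)
    exact ⟨M / 2, by linarith, by linarith, by linarith, by linarith, by linarith⟩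
  have hw : ∀ w e, w - v = e → ⟪a, w⟫ = ⟪a, v⟫ + ⟪a, e⟫ := by
    intro w e h
    rw [← h, inner_sub_right]; ring
  have hcut : ∀ w e, w - v = e → cut a (⟪a, v⟫ + κ) v w = v + (κ / ⟪a, e⟫) • e := by
    intro w e h
    rw [cut, hw w e h, h]
    congr 3 <;> ring
  refine ⟨a, ⟪a, v⟫ + κ, by linarith, ?_, ?_, ?_, ?_, ?_⟩
  · rw [hw w0 e0 he0]; linarith
  · rw [hw w1 e1 he1]; linarith
  · rw [hw w2 e2 he2]; linarith
  · rw [hw w3 e3 he3]; linarith
  rw [hcut w0 e0 he0, hcut w1 e1 he1, hcut w2 e2 he2, hcut w3 e3 he3]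
  have c0 : ∀ e, 0 < ⟪a, e⟫ → ⟪a, v + (κ / ⟪a, e⟫) • e⟫ = ⟪a, v⟫ + κ := by
    intro e he
    rw [inner_add_right, inner_smul_right, div_mul_cancel₀ _ he.ne']
  apply polygon_of (n := σ • a)
  · intro x hx y hy
    have hval : ∀ x ∈ [v + (κ / ⟪a, e0⟫) • e0, v + (κ / ⟪a, e1⟫) • e1, v + (κ / ⟪a, e2⟫) • e2,
        v + (κ / ⟪a, e3⟫) • e3], ⟪a, x⟫ = ⟪a, v⟫ + κ := by
      intro x hx
      simp only [List.mem_cons, List.not_mem_nil, or_false] at hx
      rcases hx with rfl | rfl | rfl | rfl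
      · exact c0 _ p0
      · exact c0 _ p1
      · exact c0 _ p2
      · exact c0 _ p3
    rw [real_inner_smul_left, inner_sub_right, hval x hx, hval y hy, sub_self, mul_zero]
  · exact tri_pos hκ p0 p1 p2 h0
  · exact tri_pos hκ p0 p1 p3 (by rw [tp_cyc, tp_cyc] at h3 ⊢; rwa [tp_cyc] at h3)
  · exact tri_pos hκ p1 p2 p3 h1
  · exact tri_pos hκ p1 p2 p0 (by rw [tp_cyc, tp_cyc]; exact h0)
  · exact tri_pos hκ p2 p3 p0 h2
  · exact tri_pos hκ p2 p3 p1 (by rw [tp_cyc, tp_cyc]; exact h1)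
  · exact tri_pos hκ p3 p0 p1 h3
  · exact tri_pos hκ p3 p0 p2 (by rw [tp_cyc, tp_cyc]; exact h2)

/-! ### no realization in a plane -/

lemma three_mem {S : Set E3} {x y z : E3} (hx : x ∈ S) (hy : y ∈ S) (hz : z ∈ S) {a b c : ℝ}
    (ha : 0 ≤ a) (hb : 0 ≤ b) (hc : 0 ≤ c) (h : a + b + c = 1) :
    a • x + b • y + c • z ∈ convexHull ℝ S := by
  have key := (convex_convexHull ℝ S).sum_mem (t := (Finset.univ : Finset (Fin 3)))
    (w := ![a, b, c]) (z := ![x, y, z]) (by
      intro i _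
      fin_cases i
      · exact ha
      · exact hb
      · exact hc) (by rw [Fin.sum_univ_three]; exact h) (by
      intro i _
      fin_cases i
      · exact subset_convexHull ℝ S hx
      · exact subset_convexHull ℝ S hy
      · exact subset_convexHull ℝ S hz)
  rw [Fin.sum_univ_three] at key
  exact key

lemma overlap {m : ℕ} {F : List (List (Fin m))} {p : Fin m → E3} (hp : IsRealization F p)
    {f g : List (Fin m)} (hf : f ∈ F) (hg : g ∈ F) (hfg : f ≠ g) {x y c d : Fin m}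
    (hxf : x ∈ f) (hyf : y ∈ f) (hcf : c ∈ f) (hxg : x ∈ g) (hyg : y ∈ g) (hdg : d ∈ g)
    (hcom : ∀ v, v ∈ f → v ∈ g → v = x ∨ v = y) {N : E3} {α γ : ℝ} (hγ : 0 < γ)
    (hd : p d - p x = α • (p y - p x) + γ • (p c - p x))
    (hN : tp (p y - p x) (p c - p x) N ≠ 0) : False := by
  set K : ℝ := 1 + |α| / γ + 1 / γ with hK
  have hK0 : 0 < K := by positivity
  set ε : ℝ := 1 / (4 * K) with hε
  have hε0 : 0 < ε := by positivity
  have hεK : ε * K = 1 / 4 := by rw [hε]; field_simp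
  have e1 : ε ≤ 1 / 4 := by
    rw [← hεK, hK]
    have h1 : 0 ≤ |α| / γ := by positivity
    have h2 : 0 ≤ 1 / γ := by positivity
    nlinarith
  have e2 : ε * (|α| / γ) ≤ 1 / 4 := by
    rw [← hεK, hK]
    have h2 : 0 ≤ 1 / γ := by positivity
    nlinarith
  have e3 : ε * (1 / γ) ≤ 1 / 4 := by
    rw [← hεK, hK]
    have h1 : 0 ≤ |α| / γ := by positivity
    nlinarith
  set q : E3 := p x + (1 / 2 : ℝ) • (p y - p x) + ε • (p c - p x) with hq
  have hq1 : q ∈ convexHull ℝ (p '' {v | v ∈ f}) := by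
    have := three_mem (S := p '' {v | v ∈ f}) ⟨x, hxf, rfl⟩ ⟨y, hyf, rfl⟩ ⟨c, hcf, rfl⟩
      (a := 1 / 2 - ε) (b := 1 / 2) (c := ε) (by linarith) (by norm_num) hε0.le (by ring)
    have he : q = (1 / 2 - ε) • p x + (1 / 2 : ℝ) • p y + ε • p c := by
      rw [hq]; module
    rw [he]; exact this
  have hα1 : ε * (α / γ) ≤ 1 / 4 := by
    have : ε * (α / γ) ≤ ε * (|α| / γ) := by
      apply mul_le_mul_of_nonneg_left _ hε0.le
      exact div_le_div_of_nonneg_right (le_abs_self α) hγ.le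
    linarith
  have hα2 : -(1 / 4) ≤ ε * (α / γ) := by
    have : ε * (-α / γ) ≤ ε * (|α| / γ) := by
      apply mul_le_mul_of_nonneg_left _ hε0.le
      exact div_le_div_of_nonneg_right (neg_le_abs α) hγ.le
    have h2 : ε * (-α / γ) = -(ε * (α / γ)) := by ring
    linarith
  have hq2 : q ∈ convexHull ℝ (p '' {v | v ∈ g}) := by
    have := three_mem (S := p '' {v | v ∈ g}) ⟨x, hxg, rfl⟩ ⟨y, hyg, rfl⟩ ⟨d, hdg, rfl⟩
      (a := 1 / 2 + ε * (α / γ) - ε * (1 / γ)) (b := 1 / 2 - ε * (α / γ)) (c := ε * (1 / γ))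
      (by linarith) (by linarith) (by positivity) (by ring)
    have he : q = (1 / 2 + ε * (α / γ) - ε * (1 / γ)) • p x + (1 / 2 - ε * (α / γ)) • p y +
        (ε * (1 / γ)) • p d := by
      have h1 : (ε * (1 / γ)) • p d = (ε * (1 / γ)) • p x + (ε * (1 / γ)) • (p d - p x) := by
        module
      have h2 : (ε * (1 / γ)) • (p d - p x) = (ε * (α / γ)) • (p y - p x) + ε • (p c - p x) := by
        rw [hd, smul_add, smul_smul, smul_smul]
        congr 2
        · ring
        · field_simp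
      rw [h1, h2, hq]
      module
    rw [he]; exact this
  have hq3 : q ∈ convexHull ℝ (p '' {v | v ∈ f ∧ v ∈ g}) := by
    rw [← hp.inter f hf g hg hfg]; exact ⟨hq1, hq2⟩
  have hsub : p '' {v | v ∈ f ∧ v ∈ g} ⊆ {p x, p y} := by
    rintro _ ⟨v, ⟨h1, h2⟩, rfl⟩
    rcases hcom v h1 h2 with rfl | rfl
    · exact Or.inl rfl
    · exact Or.inr rfl
  have hq4 := convexHull_mono hsub hq3
  rw [convexHull_pair] at hq4
  obtain ⟨s, t, hs, ht, hst, hqe⟩ := hq4
  have h5 : ε • (p c - p x) = (t - 1 / 2) • (p y - p x) := by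
    have hs' : s = 1 - t := by linarith
    have : ε • (p c - p x) = q - p x - (1 / 2 : ℝ) • (p y - p x) := by rw [hq]; abel
    rw [this, ← hqe, hs']
    module
  have h6 : tp (p y - p x) (ε • (p c - p x)) N = 0 := by
    rw [h5]
    simp only [tp, PiLp.smul_apply, smul_eq_mul]
    ring
  have h7 : tp (p y - p x) (ε • (p c - p x)) N = ε * tp (p y - p x) (p c - p x) N := by
    simp only [tp, PiLp.smul_apply, smul_eq_mul]
    ring
  rw [h7] at h6
  exact hN ((mul_eq_zero.1 h6).resolve_left hε0.ne')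

lemma FF_other : ∀ f ∈ FF, ∀ e ∈ cyc f, ∃ c ∈ f, c ≠ e.1 ∧ c ≠ e.2 := by decide +kernel

lemma FF_common : ∀ f ∈ FF, ∀ g ∈ FF, ∀ e ∈ cyc f, (e.2, e.1) ∈ cyc g →
    f ≠ g ∧ ∀ v, v ∈ f → v ∈ g → v = e.1 ∨ v = e.2 := by decide +kernel

/-- equal or neighbouring faces -/
def Rel (f g : List (Fin 17)) : Prop := f = g ∨ ∃ e ∈ cyc f, (e.2, e.1) ∈ cyc g
instance (f g : List (Fin 17)) : Decidable (Rel f g) := by unfold Rel; infer_instance

lemma FF_chain : ∀ f ∈ FF, ∃ g ∈ FF, ∃ h ∈ FF, Rel f g ∧ Rel g h ∧ Rel h [0, 4, 5, 1] := by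
  decide +kernel

/-- `y, x, z` are consecutive in `f` -/
def Nx (f : List (Fin 17)) (x y z : Fin 17) : Prop :=
  (y, x) ∈ cyc f ∧ (x, z) ∈ cyc f ∧ y ≠ x ∧ y ≠ z ∧ z ≠ x
instance (f : List (Fin 17)) (x y z : Fin 17) : Decidable (Nx f x y z) := by
  unfold Nx; infer_instance

lemma FF_next : ∀ x y, Adj FF x y → ∃ f ∈ FF, ∃ z, Nx f x y z := by decide +kernel

lemma FF_nb : ∀ x, ∃ y, Adj FF x y ∧ y ≠ x := by decide +kernel

lemma FF_adj_ne : ∀ x y, Adj FF x y → y ≠ x := by decide +kernel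

lemma not_flat {p : Fin 17 → E3} (hp : IsRealization FF p) {N : E3} (hN0 : N ≠ 0)
    (hN : ∀ x y, ⟪N, p x - p y⟫ = 0) : False := by
  -- the sign of a face
  have hlam : ∀ f : List (Fin 17), ∃ lam : ℝ, f ∈ FF → lam ≠ 0 ∧ ∀ a b, (a, b) ∈ cyc f →
      ∀ c ∈ f, c ≠ a → c ≠ b → 0 < lam * tp (p b - p a) (p c - p a) N := by
    intro f
    by_cases hf : f ∈ FF
    · obtain ⟨n, n1, n2⟩ := face_data hp hf
      have hrs : ∀ r s : E3, ⟪n, r⟫ = 0 → ⟪n, s⟫ = 0 →
          tp r s N * ⟪n, n⟫ = tp r s n * ⟪N, n⟫ := by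
        intro r s hr hs
        have h := four_inner r s N n n
        rw [real_inner_comm n r, real_inner_comm n s, hr, hs] at h
        linarith
      have hne : ∃ e, e ∈ cyc f := by
        have h3 := (FF_face f hf).1
        rcases f with _ | ⟨a, _ | ⟨b, f⟩⟩
        · simp at h3
        · simp at h3
        · exact ⟨(a, b), by simp [cyc]⟩
      obtain ⟨⟨a0, b0⟩, he0⟩ := hne
      obtain ⟨c0, hc0, hca, hcb⟩ := FF_other f hf _ he0
      have hpos0 := n2 a0 b0 he0 c0 hc0 hca hcb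
      have hn0 := ne_zero_of_tp hpos0
      have hnn : 0 < ⟪n, n⟫ := by
        rw [real_inner_self_eq_norm_sq]
        have := norm_pos_iff.2 hn0
        positivity
      have hl : ⟪N, n⟫ ≠ 0 := by
        intro h0
        have h := four_inner (p b0 - p a0) (p c0 - p a0) n N N
        rw [real_inner_comm N (p b0 - p a0), real_inner_comm N (p c0 - p a0), hN, hN,
          real_inner_comm N n, h0, mul_zero, mul_zero, mul_zero, add_zero, add_zero] at h
        have h2 := (mul_eq_zero.1 h).resolve_left hpos0.ne'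
        rw [real_inner_self_eq_norm_sq] at h2
        have := norm_pos_iff.2 hN0
        have : 0 < ‖N‖ ^ 2 := by positivity
        linarith
      refine ⟨⟪N, n⟫, fun _ => ⟨hl, fun a b hab c hc h1 h2 => ?_⟩⟩
      have ha := (mem_of_cyc hab).1
      have hb := (mem_of_cyc hab).2
      have h3 := hrs (p b - p a) (p c - p a) (n1 b hb a ha) (n1 c hc a ha)
      have h4 := n2 a b hab c hc h1 h2
      have h5 : ⟪N, n⟫ * tp (p b - p a) (p c - p a) N * ⟪n, n⟫ =
          ⟪N, n⟫ ^ 2 * tp (p b - p a) (p c - p a) n := by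
        rw [mul_assoc, h3]; ring
      have h6 : 0 < ⟪N, n⟫ ^ 2 * tp (p b - p a) (p c - p a) n := by positivity
      rw [← h5] at h6
      exact (mul_pos_iff_of_pos_right hnn).1 h6
    · exact ⟨0, fun h => absurd h hf⟩
  choose lam hlam using hlam
  -- neighbouring faces have the same sign
  have hadj : ∀ f ∈ FF, ∀ g ∈ FF, ∀ e ∈ cyc f, (e.2, e.1) ∈ cyc g → 0 < lam f * lam g := by
    rintro f hf g hg ⟨x, y⟩ hxy hyx
    obtain ⟨hfg, hcom⟩ := FF_common f hf g hg (x, y) hxy hyx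
    obtain ⟨c, hc, hcx, hcy⟩ := FF_other f hf _ hxy
    obtain ⟨d, hd, hdy, hdx⟩ := FF_other g hg _ hyx
    simp only at hcx hcy hdx hdy hyx hcom
    have h1 := (hlam f hf).2 x y hxy c hc hcx hcy
    have h2 := (hlam g hg).2 y x hyx d hd hdy hdx
    have h3 : tp (p x - p y) (p d - p y) N = - tp (p y - p x) (p d - p x) N := by
      simp only [tp, PiLp.sub_apply]; ring
    rw [h3] at h2
    by_contra hcon
    have hneg : lam f * lam g < 0 := lt_of_le_of_ne (not_lt.1 hcon)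
      (mul_ne_zero (hlam f hf).1 (hlam g hg).1)
    -- same side
    have hss : ∃ α γ : ℝ, 0 < γ ∧ p d - p x = α • (p y - p x) + γ • (p c - p x) := by
      rcases lt_or_gt_of_ne (hlam f hf).1 with hf0 | hf0
      · -- lam f < 0, lam g > 0
        have hg0 : 0 < lam g := by
          by_contra h
          nlinarith [not_lt.1 h]
        have q1 : 0 < tp (p y - p x) (p c - p x) (-N) := by
          have : tp (p y - p x) (p c - p x) (-N) = - tp (p y - p x) (p c - p x) N := by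
            simp only [tp, PiLp.neg_apply]; ring
          rw [this]
          by_contra h
          nlinarith [not_lt.1 h]
        have q2 : 0 < tp (p y - p x) (p d - p x) (-N) := by
          have : tp (p y - p x) (p d - p x) (-N) = - tp (p y - p x) (p d - p x) N := by
            simp only [tp, PiLp.neg_apply]; ring
          rw [this]
          exact (mul_pos_iff_of_pos_left hg0).1 h2
        exact same_side (by rw [inner_neg_left, hN, neg_zero]) (by rw [inner_neg_left, hN, neg_zero])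
          (by rw [inner_neg_left, hN, neg_zero]) q1 q2
      · have hg0 : lam g < 0 := by
          by_contra h
          nlinarith [not_lt.1 h]
        have q1 : 0 < tp (p y - p x) (p c - p x) N := (mul_pos_iff_of_pos_left hf0).1 h1
        have q2 : 0 < tp (p y - p x) (p d - p x) N := by
          by_contra h
          nlinarith [not_lt.1 h]
        exact same_side (hN _ _) (hN _ _) (hN _ _) q1 q2
    obtain ⟨α, γ, hγ, hde⟩ := hss
    have hcN : tp (p y - p x) (p c - p x) N ≠ 0 := by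
      intro h0
      rw [h0, mul_zero] at h1
      exact lt_irrefl _ h1
    exact overlap hp hf hg hfg (mem_of_cyc hxy).1 (mem_of_cyc hxy).2 hc (mem_of_cyc hyx).2
      (mem_of_cyc hyx).1 hd hcom hγ hde hcN
  have hrel : ∀ f ∈ FF, ∀ g ∈ FF, Rel f g → 0 < lam f * lam g := by
    rintro f hf g hg (rfl | ⟨e, he, he'⟩)
    · exact mul_self_pos.2 (hlam f hf).1
    · exact hadj f hf g hg e he he'
  set l0 := lam [0, 4, 5, 1] with hl0
  have h0mem : [0, 4, 5, 1] ∈ FF := by decide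
  have hsame : ∀ f ∈ FF, 0 < lam f * l0 := by
    intro f hf
    obtain ⟨g, hg, h, hh, r1, r2, r3⟩ := FF_chain f hf
    have q1 := hrel f hf g hg r1
    have q2 := hrel g hg h hh r2
    have q3 := hrel h hh _ h0mem r3
    have q4 : 0 < (lam f * lam g) * (lam g * lam h) * (lam h * l0) :=
      mul_pos (mul_pos q1 q2) q3
    have q5 : (lam f * lam g) * (lam g * lam h) * (lam h * l0) =
        (lam g ^ 2 * lam h ^ 2) * (lam f * l0) := by ring
    rw [q5] at q4
    have q6 : 0 < lam g ^ 2 * lam h ^ 2 := by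
      have := (hlam g hg).1
      have := (hlam h hh).1
      positivity
    exact (mul_pos_iff_of_pos_left q6).1 q4
  -- all faces are positively oriented with respect to M
  set M : E3 := l0 • N with hM
  have hMi : ∀ x y, ⟪M, p x - p y⟫ = 0 := by
    intro x y
    rw [hM, real_inner_smul_left, hN, mul_zero]
  have hor : ∀ f ∈ FF, ∀ a b, (a, b) ∈ cyc f → ∀ c ∈ f, c ≠ a → c ≠ b →
      0 < tp (p b - p a) (p c - p a) M := by
    intro f hf a b hab c hc h1 h2
    have q1 := (hlam f hf).2 a b hab c hc h1 h2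
    have q2 := hsame f hf
    have q3 : tp (p b - p a) (p c - p a) M = l0 * tp (p b - p a) (p c - p a) N := by
      rw [hM]
      simp only [tp, PiLp.smul_apply, smul_eq_mul]; ring
    rw [q3]
    have q4 : 0 < (lam f * tp (p b - p a) (p c - p a) N) * (lam f * l0) := mul_pos q1 q2
    have q5 : (lam f * tp (p b - p a) (p c - p a) N) * (lam f * l0) =
        lam f ^ 2 * (l0 * tp (p b - p a) (p c - p a) N) := by ring
    rw [q5] at q4
    have q6 : 0 < lam f ^ 2 := by
      have := (hlam f hf).1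
      positivity
    exact (mul_pos_iff_of_pos_left q6).1 q4
  -- the farthest vertex
  obtain ⟨x0, hx0⟩ := Finite.exists_max (fun x => ‖p x‖)
  have hφ : ∀ y, y ≠ x0 → 0 < -⟪p x0, p y - p x0⟫ := by
    intro y hy
    have hne : p y - p x0 ≠ 0 := by
      rw [sub_ne_zero]; exact fun h => hy (hp.inj h)
    have h1 : 0 < ‖p y - p x0‖ ^ 2 := by
      have := norm_pos_iff.2 hne
      positivity
    rw [norm_sub_sq_real] at h1
    have h3 : ‖p y‖ ^ 2 ≤ ‖p x0‖ ^ 2 := pow_le_pow_left₀ (norm_nonneg _) (hx0 y) 2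
    rw [inner_sub_right, real_inner_self_eq_norm_sq]
    rw [real_inner_comm] at h1
    linarith
  obtain ⟨y0, hy0, hy0ne⟩ := FF_nb x0
  set φ : Fin 17 → ℝ := fun y => -⟪p x0, p y - p x0⟫ with hφd
  set T : Fin 17 → ℝ := fun y => tp (p y - p x0) (p y0 - p x0) M / φ y with hT
  obtain ⟨y, hy, hmax⟩ := Finset.exists_max_image (Finset.univ.filter (Adj FF x0)) T
    ⟨y0, by simp [hy0]⟩
  have hyadj : Adj FF x0 y := (Finset.mem_filter.1 hy).2
  obtain ⟨f, hf, z, hyx, hxz, hyx0, hyz, hzx0⟩ := FF_next x0 y hyadj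
  have hzadj : Adj FF x0 z := ⟨f, hf, hxz⟩
  have hle : T z ≤ T y := hmax z (by simp [hzadj])
  have hpos := hor f hf x0 z hxz y (mem_of_cyc hyx).1 hyx0 hyz
  have hφy := hφ y hyx0
  have hφz := hφ z hzx0
  have hφ0 := hφ y0 hy0ne
  have hM0 : M ≠ 0 := ne_zero_of_tp hpos
  have hz0 := tp_zero hM0 (hMi z x0) (hMi y x0) (hMi y0 x0)
  have h4 := four_inner (p z - p x0) (p y - p x0) (p y0 - p x0) M (-p x0)
  rw [hz0, zero_mul] at h4
  have c1 : tp M (p y - p x0) (p y0 - p x0) = tp (p y - p x0) (p y0 - p x0) M := by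
    simp only [tp]; ring
  have c2 : tp (p z - p x0) M (p y0 - p x0) = - tp (p z - p x0) (p y0 - p x0) M := by
    simp only [tp]; ring
  have c3 : ∀ w, ⟪p w - p x0, -p x0⟫ = φ w := by
    intro w
    rw [inner_neg_right, real_inner_comm]
  rw [c1, c2, c3, c3, c3] at h4
  have hφy' : 0 < φ y := hφy
  have hφz' : 0 < φ z := hφz
  have hφ0' : 0 < φ y0 := hφ0
  have h5 : T z ≤ T y := hle
  rw [hT] at h5
  simp only at h5
  rw [div_le_div_iff₀ hφz' hφy'] at h5
  have h6 : 0 < tp (p z - p x0) (p y - p x0) M * φ y0 := mul_pos hpos hφ0'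
  linarith

/-! ### the forced convex vertex -/

lemma in_plane {r s y N : E3} (h : tp r s y = 0) (hr : ⟪N, r⟫ = 0) (hs : ⟪N, s⟫ = 0)
    (hN : 0 < tp r s N) : ⟪N, y⟫ = 0 := by
  have h1 := four_inner r s y N N
  rw [h, real_inner_comm N r, real_inner_comm N s, hr, hs, zero_mul, mul_zero, mul_zero, zero_add,
    zero_add] at h1
  have h2 := (mul_eq_zero.1 h1.symm).resolve_left hN.ne'
  rw [real_inner_comm]; exact h2

lemma forced {p : Fin 17 → E3} (hp : IsRealization FF p) : IsConvexVertex p 0 [1, 4, 3, 2] := by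
  have g1 : [0, 4, 5, 1] ∈ FF := by decide
  have g2 : [0, 1, 6, 2] ∈ FF := by decide
  have g3 : [0, 2, 7, 3] ∈ FF := by decide
  have g4 : [0, 3, 8, 4] ∈ FF := by decide
  have c1 : [9, 12, 11, 6, 1, 5] ∈ FF := by decide
  have c2 : [11, 13, 10, 7, 2, 6] ∈ FF := by decide
  have c3 : [10, 16, 14, 8, 3, 7] ∈ FF := by decide
  have c4 : [14, 15, 9, 5, 4, 8] ∈ FF := by decide
  -- edges at `0`
  have e01 := edge_lemma hp g2 g1 (x := 0) (y := 1) (a := 2) (b := 4) (c := 6) (d := 5)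
    (by decide) (by decide) (by decide) (by decide) (by decide) (by decide) (by decide)
    (by decide) (by decide) (by decide) (by decide) (by decide) (by decide) (by decide)
  have e02 := edge_lemma hp g3 g2 (x := 0) (y := 2) (a := 3) (b := 1) (c := 7) (d := 6)
    (by decide) (by decide) (by decide) (by decide) (by decide) (by decide) (by decide)
    (by decide) (by decide) (by decide) (by decide) (by decide) (by decide) (by decide)
  have e03 := edge_lemma hp g4 g3 (x := 0) (y := 3) (a := 4) (b := 2) (c := 8) (d := 7)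
    (by decide) (by decide) (by decide) (by decide) (by decide) (by decide) (by decide)
    (by decide) (by decide) (by decide) (by decide) (by decide) (by decide) (by decide)
  have e04 := edge_lemma hp g1 g4 (x := 0) (y := 4) (a := 1) (b := 3) (c := 5) (d := 8)
    (by decide) (by decide) (by decide) (by decide) (by decide) (by decide) (by decide)
    (by decide) (by decide) (by decide) (by decide) (by decide) (by decide) (by decide)
  -- the ring
  have e16 := edge_lemma hp g2 c1 (x := 1) (y := 6) (a := 0) (b := 5) (c := 2) (d := 11)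
    (by decide) (by decide) (by decide) (by decide) (by decide) (by decide) (by decide)
    (by decide) (by decide) (by decide) (by decide) (by decide) (by decide) (by decide)
  have e62 := edge_lemma hp g2 c2 (x := 6) (y := 2) (a := 1) (b := 11) (c := 0) (d := 7)
    (by decide) (by decide) (by decide) (by decide) (by decide) (by decide) (by decide)
    (by decide) (by decide) (by decide) (by decide) (by decide) (by decide) (by decide)
  have e27 := edge_lemma hp g3 c2 (x := 2) (y := 7) (a := 0) (b := 6) (c := 3) (d := 10)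
    (by decide) (by decide) (by decide) (by decide) (by decide) (by decide) (by decide)
    (by decide) (by decide) (by decide) (by decide) (by decide) (by decide) (by decide)
  have e73 := edge_lemma hp g3 c3 (x := 7) (y := 3) (a := 2) (b := 10) (c := 0) (d := 8)
    (by decide) (by decide) (by decide) (by decide) (by decide) (by decide) (by decide)
    (by decide) (by decide) (by decide) (by decide) (by decide) (by decide) (by decide)
  have e38 := edge_lemma hp g4 c3 (x := 3) (y := 8) (a := 0) (b := 7) (c := 4) (d := 14)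
    (by decide) (by decide) (by decide) (by decide) (by decide) (by decide) (by decide)
    (by decide) (by decide) (by decide) (by decide) (by decide) (by decide) (by decide)
  have e84 := edge_lemma hp g4 c4 (x := 8) (y := 4) (a := 3) (b := 14) (c := 0) (d := 5)
    (by decide) (by decide) (by decide) (by decide) (by decide) (by decide) (by decide)
    (by decide) (by decide) (by decide) (by decide) (by decide) (by decide) (by decide)
  -- e_xy : Pos (D(y;x)) (D(x;y))
  set D1 := tp (p 0 - p 1) (p 5 - p 1) (p 6 - p 1) with hD1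
  set D2 := tp (p 0 - p 2) (p 6 - p 2) (p 7 - p 2) with hD2
  set D3 := tp (p 0 - p 3) (p 7 - p 3) (p 8 - p 3) with hD3
  set D4 := tp (p 0 - p 4) (p 8 - p 4) (p 5 - p 4) with hD4
  set D6 := tp (p 1 - p 6) (p 11 - p 6) (p 2 - p 6) with hD6
  set D7 := tp (p 2 - p 7) (p 10 - p 7) (p 3 - p 7) with hD7
  set D8 := tp (p 3 - p 8) (p 14 - p 8) (p 4 - p 8) with hD8
  have t16 : tp (p 6 - p 1) (p 0 - p 1) (p 5 - p 1) = D1 := by rw [hD1, tp_cyc]
  have t62 : tp (p 2 - p 6) (p 1 - p 6) (p 11 - p 6) = D6 := by rw [hD6, tp_cyc]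
  have t26 : tp (p 6 - p 2) (p 7 - p 2) (p 0 - p 2) = D2 := by rw [hD2, tp_cyc, tp_cyc]
  have t27 : tp (p 7 - p 2) (p 0 - p 2) (p 6 - p 2) = D2 := by rw [hD2, tp_cyc]
  have t73 : tp (p 3 - p 7) (p 2 - p 7) (p 10 - p 7) = D7 := by rw [hD7, tp_cyc]
  have t37 : tp (p 7 - p 3) (p 8 - p 3) (p 0 - p 3) = D3 := by rw [hD3]; simp only [tp]; ring
  have t38 : tp (p 8 - p 3) (p 0 - p 3) (p 7 - p 3) = D3 := by rw [hD3, tp_cyc]
  have t84 : tp (p 4 - p 8) (p 3 - p 8) (p 14 - p 8) = D8 := by rw [hD8, tp_cyc]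
  have t48 : tp (p 8 - p 4) (p 5 - p 4) (p 0 - p 4) = D4 := by rw [hD4]; simp only [tp]; ring
  rw [t16] at e16
  rw [t62, t26] at e62
  rw [t27] at e27
  rw [t73, t37] at e73
  rw [t38] at e38
  rw [t84, t48] at e84
  -- e16 : Pos D6 D1, e62 : Pos D2 D6, e27 : Pos D7 D2, e73 : Pos D3 D7, e38 : Pos D8 D3, e84 : Pos D4 D8
  have q21 : Pos D2 D1 := e62.trans e16
  have q31 : Pos D3 D1 := (e73.trans e27).trans q21
  have q41 : Pos D4 D1 := (e84.trans e38).trans q31
  set A1 := tp (p 1 - p 0) (p 2 - p 0) (p 4 - p 0) with hA1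
  set A2 := tp (p 2 - p 0) (p 3 - p 0) (p 1 - p 0) with hA2
  set A3 := tp (p 3 - p 0) (p 4 - p 0) (p 2 - p 0) with hA3
  set A4 := tp (p 4 - p 0) (p 1 - p 0) (p 3 - p 0) with hA4
  -- e01 : Pos D1 A1 etc
  have r2 : Pos A2 A1 := (e02.symm.trans q21).trans e01
  have r3 : Pos A3 A1 := (e03.symm.trans q31).trans e01
  have r4 : Pos A4 A1 := (e04.symm.trans q41).trans e01
  have w1 : tp (p 1 - p 0) (p 4 - p 0) (p 3 - p 0) = - A4 := by rw [hA4]; simp only [tp]; ring
  have w2 : tp (p 4 - p 0) (p 3 - p 0) (p 2 - p 0) = - A3 := by rw [hA3]; simp only [tp]; ring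
  have w3 : tp (p 3 - p 0) (p 2 - p 0) (p 1 - p 0) = - A2 := by rw [hA2]; simp only [tp]; ring
  have w4 : tp (p 2 - p 0) (p 1 - p 0) (p 4 - p 0) = - A1 := by rw [hA1]; simp only [tp]; ring
  obtain ⟨k2, hk2, h2⟩ := r2
  obtain ⟨k3, hk3, h3⟩ := r3
  obtain ⟨k4, hk4, h4⟩ := r4
  by_cases hA : A1 = 0
  · exfalso
    have z4 : A4 = 0 := by rw [h4, hA, mul_zero]
    obtain ⟨N, n1, n2⟩ := face_data hp g1
    have hpos := n2 0 4 (by decide) 1 (by decide) (by decide) (by decide)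
    have i0 : ⟪N, p 0 - p 0⟫ = 0 := n1 0 (by decide) 0 (by decide)
    have i4 : ⟪N, p 4 - p 0⟫ = 0 := n1 4 (by decide) 0 (by decide)
    have i5 : ⟪N, p 5 - p 0⟫ = 0 := n1 5 (by decide) 0 (by decide)
    have i1 : ⟪N, p 1 - p 0⟫ = 0 := n1 1 (by decide) 0 (by decide)
    have i2 : ⟪N, p 2 - p 0⟫ = 0 := by
      refine in_plane (r := p 4 - p 0) (s := p 1 - p 0) ?_ i4 i1 hpos
      rw [tp_cyc]; exact hA
    have i3 : ⟪N, p 3 - p 0⟫ = 0 := in_plane (r := p 4 - p 0) (s := p 1 - p 0) z4 i4 i1 hpos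
    have P2 := plane_of hp g2 (a := 0) (b := 1) (c := 2) (by decide) (by decide) (by decide)
      (by decide) i0 i1 i2
    have i6 := P2 6 (by decide)
    have P3 := plane_of hp g3 (a := 0) (b := 2) (c := 3) (by decide) (by decide) (by decide)
      (by decide) i0 i2 i3
    have i7 := P3 7 (by decide)
    have P4 := plane_of hp g4 (a := 0) (b := 3) (c := 4) (by decide) (by decide) (by decide)
      (by decide) i0 i3 i4
    have i8 := P4 8 (by decide)
    have Q1 := plane_of hp c1 (a := 6) (b := 1) (c := 5) (by decide) (by decide) (by decide)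
      (by decide) i6 i1 i5
    have Q2 := plane_of hp c2 (a := 7) (b := 2) (c := 6) (by decide) (by decide) (by decide)
      (by decide) i7 i2 i6
    have Q3 := plane_of hp c3 (a := 8) (b := 3) (c := 7) (by decide) (by decide) (by decide)
      (by decide) i8 i3 i7
    have Q4 := plane_of hp c4 (a := 5) (b := 4) (c := 8) (by decide) (by decide) (by decide)
      (by decide) i5 i4 i8
    have hall : ∀ x, ⟪N, p x - p 0⟫ = 0 := by
      intro x
      fin_cases x
      · exact i0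
      · exact i1
      · exact i2
      · exact i3
      · exact i4
      · exact i5
      · exact i6
      · exact i7
      · exact i8
      · exact Q1 9 (by decide)
      · exact Q2 10 (by decide)
      · exact Q1 11 (by decide)
      · exact Q1 12 (by decide)
      · exact Q2 13 (by decide)
      · exact Q3 14 (by decide)
      · exact Q4 15 (by decide)
      · exact Q3 16 (by decide)
    apply not_flat hp (ne_zero_of_tp hpos)
    intro x y
    have : p x - p y = (p x - p 0) - (p y - p 0) := by abel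
    rw [this, inner_sub_right, hall, hall, sub_zero]
  · -- the sign
    obtain ⟨σ, hσ⟩ : ∃ σ : ℝ, 0 < σ * -A1 := ⟨-A1, mul_self_pos.2 (neg_ne_zero.2 hA)⟩
    have s4 : 0 < σ * tp (p 1 - p 0) (p 4 - p 0) (p 3 - p 0) := by
      rw [w1, h4]
      have : σ * -(k4 * A1) = k4 * (σ * -A1) := by ring
      rw [this]; exact mul_pos hk4 hσ
    have s3 : 0 < σ * tp (p 4 - p 0) (p 3 - p 0) (p 2 - p 0) := by
      rw [w2, h3]
      have : σ * -(k3 * A1) = k3 * (σ * -A1) := by ring
      rw [this]; exact mul_pos hk3 hσ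
    have s2 : 0 < σ * tp (p 3 - p 0) (p 2 - p 0) (p 1 - p 0) := by
      rw [w3, h2]
      have : σ * -(k2 * A1) = k2 * (σ * -A1) := by ring
      rw [this]; exact mul_pos hk2 hσ
    have s1 : 0 < σ * tp (p 2 - p 0) (p 1 - p 0) (p 4 - p 0) := by
      rw [w4]; exact hσ
    obtain ⟨a, c, hv, h1', h4', h3', h2', hpoly⟩ := four_convex σ (p 0) (p 1) (p 4) (p 3) (p 2)
      s4 s3 s2 s1
    refine ⟨a, c, hv, ?_, hpoly⟩
    intro w hw
    simp only [List.mem_cons, List.not_mem_nil, or_false] at hw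
    rcases hw with rfl | rfl | rfl | rfl
    · exact h1'
    · exact h4'
    · exact h3'
    · exact h2'

/-! ### a realization -/

/-- coordinates of the vertices of the realization -/
def PX : Fin 17 → ℤ := ![9, 9, 8, 8, 9, 9, 8, 6, 8, 0, -12, 4, 0, -4, 4, 0, -4]
def PY : Fin 17 → ℤ := ![0, 1, -1, -1, 1, 3, 0, -3, 0, 12, -12, 0, 4, -4, 0, 4, -4]
def PZ : Fin 17 → ℤ := ![0, 1, 1, -1, -1, 0, 2, 0, -2, 0, 0, 4, 4, 4, -4, -4, -4]
/-- normal vectors of the faces -/
def nX : Fin 13 → ℤ := ![1, 2, 1, 2, 1, 1, 1, 1, -2, -2, -1, 2, -1]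
def nY : Fin 13 → ℤ := ![0, -1, -1, -1, 1, -2, -2, 1, 1, 1, -1, -1, 2]
def nZ : Fin 13 → ℤ := ![0, 1, 0, -1, 2, 2, -2, -2, 2, -2, 0, 0, 0]
/-- coefficients of functionals separating the faces `i` and `j` -/
def sa : Fin 13 → Fin 13 → ℤ := ![
    ![0, -2, 1, 1, 1, 1, 1, 1, 1, 1, 1, 1, 1],
    ![2, 0, 2, 2, 2, 2, 2, 2, 2, 2, 2, 2, 2],
    ![-1, -2, 0, 1, 1, 1, 1, 1, 1, 1, 1, 1, 1],
    ![-1, -2, -1, 0, 2, 2, 2, 2, 2, 2, 2, 2, 2],
    ![-1, -2, -1, -2, 0, 1, 1, 1, 1, 1, 1, 1, 1],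
    ![-1, -2, -1, -2, -1, 0, 1, 1, 1, 1, 1, 1, 1],
    ![-1, -2, -1, -2, -1, -1, 0, 1, 1, 1, 1, 1, 1],
    ![-1, -2, -1, -2, -1, -1, -1, 0, 1, 1, 1, 1, 1],
    ![-1, -2, -1, -2, -1, -1, -1, -1, 0, -2, -2, -2, -2],
    ![-1, -2, -1, -2, -1, -1, -1, -1, 2, 0, -2, -2, -2],
    ![-1, -2, -1, -2, -1, -1, -1, -1, 2, 2, 0, 1, 1],
    ![-1, -2, -1, -2, -1, -1, -1, -1, 2, 2, -1, 0, -1],
    ![-1, -2, -1, -2, -1, -1, -1, -1, 2, 2, -1, 1, 0]]
def sb : Fin 13 → Fin 13 → ℤ := ![
    ![0, 1, 0, 0, 0, 0, 0, 0, 0, 0, 0, 0, 0],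
    ![-1, 0, -1, -1, -1, -1, -1, -1, -1, -1, -1, -1, -1],
    ![0, 1, 0, -1, -1, -1, -1, -1, -1, -1, -1, -1, -1],
    ![0, 1, 1, 0, -1, -1, -1, -1, -1, -1, -1, -1, -1],
    ![0, 1, 1, 1, 0, 1, 1, 1, 1, 1, 1, 1, 1],
    ![0, 1, 1, 1, -1, 0, -2, -2, -2, -2, -2, -2, -2],
    ![0, 1, 1, 1, -1, 2, 0, -2, -2, -2, -2, -2, -2],
    ![0, 1, 1, 1, -1, 2, 2, 0, 1, 1, 1, 1, 1],
    ![0, 1, 1, 1, -1, 2, 2, -1, 0, 1, 1, 1, 1],
    ![0, 1, 1, 1, -1, 2, 2, -1, -1, 0, 1, 1, 1],
    ![0, 1, 1, 1, -1, 2, 2, -1, -1, -1, 0, 1, 1],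
    ![0, 1, 1, 1, -1, 2, 2, -1, -1, -1, -1, 0, 2],
    ![0, 1, 1, 1, -1, 2, 2, -1, -1, -1, -1, -2, 0]]
def sc : Fin 13 → Fin 13 → ℤ := ![
    ![0, -1, 0, 0, 0, 0, 0, 0, 0, 0, 0, 0, 0],
    ![1, 0, 1, 1, 1, 1, 1, 1, 1, 1, 1, 1, 1],
    ![0, -1, 0, 0, 0, 0, 0, 0, 0, 0, 0, 0, 0],
    ![0, -1, 0, 0, -1, -1, -1, -1, -1, -1, -1, -1, -1],
    ![0, -1, 0, 1, 0, 2, 2, 2, 2, 2, 2, 2, 2],
    ![0, -1, 0, 1, -2, 0, 2, 2, 2, 2, 2, 2, 2],
    ![0, -1, 0, 1, -2, -2, 0, -2, -2, -2, -2, -2, -2],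
    ![0, -1, 0, 1, -2, -2, 2, 0, -2, -2, -2, -2, -2],
    ![0, -1, 0, 1, -2, -2, 2, 2, 0, 2, 2, 2, 2],
    ![0, -1, 0, 1, -2, -2, 2, 2, -2, 0, -2, -2, -2],
    ![0, -1, 0, 1, -2, -2, 2, 2, -2, 2, 0, 0, 0],
    ![0, -1, 0, 1, -2, -2, 2, 2, -2, 2, 0, 0, 0],
    ![0, -1, 0, 1, -2, -2, 2, 2, -2, 2, 0, 0, 0]]
def sd : Fin 13 → Fin 13 → ℤ := ![
    ![0, -18, 9, 9, 9, 9, 9, 9, 9, 9, 9, 9, 9],
    ![18, 0, 18, 18, 18, 18, 18, 18, 18, 18, 18, 18, 18],
    ![-9, -18, 0, 9, 9, 9, 9, 9, 9, 9, 9, 9, 9],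
    ![-9, -18, -9, 0, 18, 18, 18, 18, 18, 18, 18, 18, 18],
    ![-9, -18, -9, -18, 0, 12, 12, 12, 12, 12, 12, 12, 12],
    ![-9, -18, -9, -18, -12, 0, 12, 12, 12, 12, 12, 12, 12],
    ![-9, -18, -9, -18, -12, -12, 0, 12, 12, 12, 12, 12, 12],
    ![-9, -18, -9, -18, -12, -12, -12, 0, 12, 12, 12, 12, 12],
    ![-9, -18, -9, -18, -12, -12, -12, -12, 0, 12, 12, 12, 12],
    ![-9, -18, -9, -18, -12, -12, -12, -12, -12, 0, 12, 12, 12],
    ![-9, -18, -9, -18, -12, -12, -12, -12, -12, -12, 0, 4, 4],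
    ![-9, -18, -9, -18, -12, -12, -12, -12, -12, -12, -4, 0, -4],
    ![-9, -18, -9, -18, -12, -12, -12, -12, -12, -12, -4, 4, 0]]

/-- integer determinant of two edge vectors and the normal vector of a face -/
def itp (a b x : Fin 17) (i : Fin 13) : ℤ :=
  (PX b - PX a) * ((PY x - PY a) * nZ i - (PZ x - PZ a) * nY i) -
  (PY b - PY a) * ((PX x - PX a) * nZ i - (PZ x - PZ a) * nX i) +
  (PZ b - PZ a) * ((PX x - PX a) * nY i - (PY x - PY a) * nX i)

/-- the separating functional of the faces `i`, `j` at the vertex `x` -/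
def val (i j : Fin 13) (x : Fin 17) : ℤ := sa i j * PX x + sb i j * PY x + sc i j * PZ x

/-- the vertices of the realization -/
noncomputable def P0 (x : Fin 17) : E3 := !₂[(PX x : ℝ), (PY x : ℝ), (PZ x : ℝ)]

lemma int_inj : ∀ x y, PX x = PX y → PY x = PY y → PZ x = PZ y → x = y := by decide +kernel

lemma int_face1 : ∀ i : Fin 13, ∀ x ∈ Fc i, ∀ y ∈ Fc i,
    nX i * (PX x - PX y) + nY i * (PY x - PY y) + nZ i * (PZ x - PZ y) = 0 := by decide +kernel

lemma int_face2 : ∀ i : Fin 13, ∀ e ∈ cyc (Fc i), ∀ x ∈ Fc i, x ≠ e.1 → x ≠ e.2 →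
    0 < itp e.1 e.2 x i := by decide +kernel

lemma int_sep1 : ∀ i j : Fin 13, i ≠ j → ∀ x ∈ Fc i, sd i j ≤ val i j x := by decide +kernel
lemma int_sep2 : ∀ i j : Fin 13, i ≠ j → ∀ x ∈ Fc j, val i j x ≤ sd i j := by decide +kernel
/-- strict separation on one side -/
def Sp (i j : Fin 13) : Prop := (∀ x ∈ Fc i, x ∉ Fc j → sd i j < val i j x) ∨
    (∀ x ∈ Fc j, x ∉ Fc i → val i j x < sd i j)
instance (i j : Fin 13) : Decidable (Sp i j) := by unfold Sp; infer_instance
lemma int_sep3 : ∀ i j : Fin 13, i ≠ j → Sp i j := by decide +kernel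

lemma P0_inj : Function.Injective P0 := by
  intro x y h
  have h0 : (P0 x) 0 = (P0 y) 0 := by rw [h]
  have h1 : (P0 x) 1 = (P0 y) 1 := by rw [h]
  have h2 : (P0 x) 2 = (P0 y) 2 := by rw [h]
  simp only [P0, Matrix.cons_val] at h0 h1 h2
  exact int_inj x y (by exact_mod_cast h0) (by exact_mod_cast h1) (by exact_mod_cast h2)

lemma face_lemma {S : Set (Fin 17)} {b : E3} {d : ℝ} {z : E3} (hS : ∀ x ∈ S, d ≤ ⟪b, P0 x⟫)
    (hz : z ∈ convexHull ℝ (P0 '' S)) (hzd : ⟪b, z⟫ ≤ d) :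
    z ∈ convexHull ℝ (P0 '' {x | x ∈ S ∧ ⟪b, P0 x⟫ = d}) := by
  set A := P0 '' {x | x ∈ S ∧ ⟪b, P0 x⟫ = d} with hA
  set B := P0 '' {x | x ∈ S ∧ d < ⟪b, P0 x⟫} with hB
  have hU : P0 '' S = A ∪ B := by
    rw [hA, hB, ← image_union]
    congr 1
    ext x
    simp only [mem_union, mem_ofPred_eq]
    constructor
    · intro hx
      rcases eq_or_lt_of_le (hS x hx) with h | h
      · exact Or.inl ⟨hx, h.symm⟩
      · exact Or.inr ⟨hx, h⟩
    · rintro (h | h) <;> exact h.1
  have hBd : ∀ y ∈ convexHull ℝ B, d < ⟪b, y⟫ := by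
    intro y hy
    have hc : Convex ℝ {y : E3 | d < ⟪b, y⟫} := by
      intro x hx y hy s t hs ht hst
      simp only [mem_ofPred_eq] at hx hy ⊢
      rw [inner_add_right, inner_smul_right, inner_smul_right]
      have h1 : s * d + t * d = d := by rw [← add_mul, hst, one_mul]
      rcases eq_or_lt_of_le hs with h | h
      · have ht1 : t = 1 := by linarith
        rw [← h, ht1]; linarith
      · have h2 := mul_lt_mul_of_pos_left hx h
        have h3 := mul_le_mul_of_nonneg_left hy.le ht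
        linarith
    exact convexHull_min (by rintro _ ⟨x, hx, rfl⟩; exact hx.2) hc hy
  have hAd : ∀ y ∈ convexHull ℝ A, ⟪b, y⟫ = d := by
    intro y hy
    have hc : Convex ℝ {y : E3 | ⟪b, y⟫ = d} := by
      intro x hx y hy s t hs ht hst
      simp only [mem_ofPred_eq] at hx hy ⊢
      rw [inner_add_right, inner_smul_right, inner_smul_right, hx, hy, ← add_mul, hst, one_mul]
    exact convexHull_min (by rintro _ ⟨x, hx, rfl⟩; exact hx.2) hc hy
  rw [hU] at hz
  rcases B.eq_empty_or_nonempty with hBe | hBn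
  · rwa [hBe, union_empty] at hz
  rcases A.eq_empty_or_nonempty with hAe | hAn
  · rw [hAe, empty_union] at hz
    exact absurd hzd (not_le.2 (hBd z hz))
  · rw [convexHull_union hAn hBn, mem_convexJoin] at hz
    obtain ⟨x, hx, y, hy, s, t, hs, ht, hst, rfl⟩ := hz
    rw [inner_add_right, inner_smul_right, inner_smul_right, hAd x hx] at hzd
    have h1 : t * (⟪b, y⟫ - d) ≤ 0 := by
      have : s = 1 - t := by linarith
      rw [this] at hzd; linarith
    have h2 := hBd y hy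
    have ht0 : t = 0 := by
      by_contra hne
      have : 0 < t := lt_of_le_of_ne ht (Ne.symm hne)
      have := mul_pos this (sub_pos.2 h2)
      linarith
    have hs1 : s = 1 := by linarith
    rw [ht0, hs1, zero_smul, one_smul, add_zero]
    exact hx

lemma P0_real : IsRealization FF P0 where
  inj := P0_inj
  face := by
    intro f hf
    obtain ⟨i, rfl⟩ := FF_mem.1 hf
    refine ⟨by rw [List.length_map]; exact (FF_face _ hf).1, (FF_face _ hf).2.map P0_inj,
      !₂[(nX i : ℝ), (nY i : ℝ), (nZ i : ℝ)], ?_, ?_⟩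
    · intro x hx y hy
      obtain ⟨a, ha, rfl⟩ := List.mem_map.1 hx
      obtain ⟨b, hb, rfl⟩ := List.mem_map.1 hy
      rw [inner_eq]
      simp only [P0, PiLp.sub_apply, Matrix.cons_val]
      exact_mod_cast int_face1 i a ha b hb
    · intro e he x hx hx1 hx2
      obtain ⟨c, hc, rfl⟩ := List.mem_map.1 hx
      unfold cyc at he
      rw [← List.map_rotate, List.zip_map, List.mem_map] at he
      obtain ⟨⟨a, b⟩, hab, rfl⟩ := he
      simp only [Prod.map] at hx1 hx2 ⊢
      have := int_face2 i (a, b) hab c hc (fun h => hx1 (by rw [h])) (fun h => hx2 (by rw [h]))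
      simp only [itp] at this
      simp only [tp, P0, PiLp.sub_apply, Matrix.cons_val]
      exact_mod_cast this
  inter := by
    intro f hf g hg hfg
    obtain ⟨i, rfl⟩ := FF_mem.1 hf
    obtain ⟨j, rfl⟩ := FF_mem.1 hg
    have hij : i ≠ j := fun h => hfg (by rw [h])
    apply Subset.antisymm
    · rintro z ⟨hz1, hz2⟩
      set b : E3 := !₂[(sa i j : ℝ), (sb i j : ℝ), (sc i j : ℝ)] with hb
      have hval : ∀ x, ⟪b, P0 x⟫ = (val i j x : ℝ) := by
        intro x
        rw [inner_eq]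
        simp only [hb, P0, Matrix.cons_val, val]
        push_cast; ring
      have h1 : ∀ x ∈ {v | v ∈ Fc i}, (sd i j : ℝ) ≤ ⟪b, P0 x⟫ := by
        intro x hx
        rw [hval]; exact_mod_cast int_sep1 i j hij x hx
      have h2 : ∀ x ∈ {v | v ∈ Fc j}, ⟪b, P0 x⟫ ≤ (sd i j : ℝ) := by
        intro x hx
        rw [hval]; exact_mod_cast int_sep2 i j hij x hx
      have hz1d : (sd i j : ℝ) ≤ ⟪b, z⟫ := by
        have hc : Convex ℝ {y : E3 | (sd i j : ℝ) ≤ ⟪b, y⟫} := by
          intro x hx y hy s t hs ht hst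
          simp only [mem_ofPred_eq] at hx hy ⊢
          rw [inner_add_right, inner_smul_right, inner_smul_right]
          have h3 := mul_le_mul_of_nonneg_left hx hs
          have h4 := mul_le_mul_of_nonneg_left hy ht
          have h5 : s * (sd i j : ℝ) + t * (sd i j : ℝ) = sd i j := by
            rw [← add_mul, hst, one_mul]
          linarith
        exact convexHull_min (by rintro _ ⟨x, hx, rfl⟩; exact h1 x hx) hc hz1
      have hz2d : ⟪b, z⟫ ≤ (sd i j : ℝ) := by
        have hc : Convex ℝ {y : E3 | ⟪b, y⟫ ≤ (sd i j : ℝ)} := by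
          intro x hx y hy s t hs ht hst
          simp only [mem_ofPred_eq] at hx hy ⊢
          rw [inner_add_right, inner_smul_right, inner_smul_right]
          have h3 := mul_le_mul_of_nonneg_left hx hs
          have h4 := mul_le_mul_of_nonneg_left hy ht
          have h5 : s * (sd i j : ℝ) + t * (sd i j : ℝ) = sd i j := by
            rw [← add_mul, hst, one_mul]
          linarith
        exact convexHull_min (by rintro _ ⟨x, hx, rfl⟩; exact h2 x hx) hc hz2
      rcases int_sep3 i j hij with h3 | h3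
      · have h4 := face_lemma h1 hz1 hz2d
        refine convexHull_mono (image_mono ?_) h4
        rintro x ⟨hx, hxd⟩
        refine ⟨hx, ?_⟩
        by_contra hcon
        have := h3 x hx hcon
        rw [hval] at hxd
        have h5 : val i j x = sd i j := by exact_mod_cast hxd
        omega
      · have h1' : ∀ x ∈ {v | v ∈ Fc j}, -(sd i j : ℝ) ≤ ⟪-b, P0 x⟫ := by
          intro x hx
          rw [inner_neg_left]; linarith [h2 x hx]
        have h4 := face_lemma h1' hz2 (by rw [inner_neg_left]; linarith)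
        refine convexHull_mono (image_mono ?_) h4
        rintro x ⟨hx, hxd⟩
        refine ⟨?_, hx⟩
        by_contra hcon
        have := h3 x hx hcon
        rw [inner_neg_left, hval, neg_inj] at hxd
        have h5 : val i j x = sd i j := by exact_mod_cast hxd
        omega
    · apply subset_inter
      · exact convexHull_mono (image_mono fun x hx => hx.1)
      · exact convexHull_mono (image_mono fun x hx => hx.2)

/-- There is a combinatorial type of polyhedral torus every realization of which in `E3` has a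
convex vertex of valence at least 4. -/
theorem result : ∃ (m : ℕ) (F : List (List (Fin m))), IsTorusMap F ∧
    (∃ p : Fin m → E3, IsRealization F p) ∧
    ∀ p : Fin m → E3, IsRealization F p →
      ∃ v L, IsLink F v L ∧ 4 ≤ L.length ∧ IsConvexVertex p v L :=
  ⟨17, FF, FF_torus, ⟨P0, P0_real⟩, fun _ hp => ⟨0, [1, 4, 3, 2], LL_link 0, by simp, forced hp⟩⟩

end Pool.Agent.Results.MP_ca7516_co.ForcedConvex
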